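import Pool.Agent.helper66.LIN.Spec

/-!
Row lin:XNC: the old edges and the new ones meet only in common end points.
-/

set_option autoImplicit false

namespace LSH.Lin

open Classical in
theorem XNC_avs {P : Finset Pt} {L : Multiset (Pt × BT)} {σ : ℝ → ℝ} {u : Pt} {up : Bool} {c : ℝ}
    {p : Pt} (h : p ∈ avs P L σ u up c) : p ∈ P := by
  unfold avs at h
  exact (Finset.mem_filter.1 h).1

theorem XNC (hOB : OB_stmt) (hEE : EE_stmt) (hGTF : GTF_stmt) (hRGN : RGN_stmt) (hNDR : NDR_stmt)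
    (hNSG : NSG_stmt) (hVLM : VLM_stmt) : XNC_stmt := by
  intro P L₀ σ X u t up x₁ q G D hS hD i hi e he f hf z hez hfz
  obtain ⟨g1, g2, g3, -⟩ := hGTF
  have hz : z = i.1 := by
    rcases hD.reg i hi f hf z hfz with h | h
    · exact h
    · exact absurd h (not_lt.2 (hNDR P L₀ σ X u t up x₁ q G hS e he z hez))
  rcases Multiset.mem_add.1 hi with hi0 | hip
  · exfalso
    have h1 := (hVLM P L₀ σ X u t up x₁ q G hS).1 i hi0
    have h2 := (hRGN P _ σ X u t up x₁ G hS.cfg (Multiset.mem_cons_self _ _) hS.gad e he z hez).1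
    have h3 := hS.cfg.live i (Multiset.mem_cons_of_mem hi0)
    rcases h2 with h2 | h2
    · exact h1.1 (hz.symm.trans h2)
    · rw [hz, h3] at h2
      exact lt_irrefl _ h2
  · have hP : ∀ p ∈ G.pts, p ∈ P := fun p hp => XNC_avs (hS.gad.pts p hp)
    have hzP : z ∈ P := by
      rw [hz]
      exact hP _ (g3 G i hip)
    have hu : u ∈ P := hS.cfg.mem (u, t) (Multiset.mem_cons_self _ _)
    have hD' : ∀ p ∈ (D i.1).pts, p ∈ P := fun p hp => (hD.pts i hi p hp).1
    have e1 : e.a ∈ P ∧ e.b ∈ P := by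
      rcases List.mem_cons.1 he with h | h
      · rw [h]
        exact ⟨hu, hP _ (g1 G)⟩
      · exact ⟨hP _ (g2 G e h).1, hP _ (g2 G e h).2⟩
    have f1 : f.a ∈ P ∧ f.b ∈ P := by
      rcases List.mem_cons.1 hf with h | h
      · rw [h]
        exact ⟨hz ▸ hzP, hD' _ (hEE.2.1 _)⟩
      · exact ⟨hD' _ (hEE.1 _ f h).1, hD' _ (hEE.1 _ f h).2⟩
    exact ⟨hOB.2.1 (P : Set Pt) e z hS.cfg.gen e1.1 e1.2 hzP hez,
      hOB.2.1 (P : Set Pt) f z hS.cfg.gen f1.1 f1.2 hzP hfz⟩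

end LSH.Lin
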