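import Pool.Agent.helper66.LIN.Spec

/-!
Row lin:SQI: two numerical inequalities.
-/

set_option autoImplicit false

namespace LSH.Lin

theorem SQI_one (x y : ℝ) (h1 : 0 < y) (h2 : y ≤ x) : √(x + y) ≤ √x + √y / 2 := by
  have hx : 0 ≤ x := by linarith
  have b1 : 0 ≤ √y := Real.sqrt_nonneg y
  have ab : √y ≤ √x := Real.sqrt_le_sqrt h2
  have ea : √x ^ 2 = x := Real.sq_sqrt hx
  have eb : √y ^ 2 = y := Real.sq_sqrt h1.le
  rw [Real.sqrt_le_iff]
  refine ⟨by linarith, ?_⟩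
  nlinarith [mul_le_mul_of_nonneg_right ab b1, sq_nonneg (√y)]

theorem SQI_ev (m : ℕ) : (((2 * m : ℕ) : ℝ) ^ 2 + 5 * (2 * m : ℕ) + 2) * (1 + (2 * m : ℕ)) +
    (2 + (2 * m : ℕ)) ^ 2 ≤ 68 * 2 ^ m := by
  rcases Nat.lt_or_ge m 4 with h | h
  · interval_cases m <;> norm_num
  · have key : ∀ k : ℕ, (((2 * (k + 4) : ℕ) : ℝ) ^ 2 + 5 * (2 * (k + 4) : ℕ) + 2) *
        (1 + (2 * (k + 4) : ℕ)) + (2 + (2 * (k + 4) : ℕ)) ^ 2 ≤ 68 * 2 ^ (k + 4) := by
      intro k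
      induction k with
      | zero => norm_num
      | succ k ih =>
        have hk : (0 : ℝ) ≤ k := Nat.cast_nonneg k
        have e : (2 : ℝ) ^ (k + 1 + 4) = 2 * 2 ^ (k + 4) := by ring
        rw [e]
        push_cast at ih ⊢
        nlinarith [mul_nonneg hk hk, mul_nonneg hk (mul_nonneg hk hk)]
    obtain ⟨k, rfl⟩ : ∃ k, m = k + 4 := ⟨m - 4, by omega⟩
    exact key k

theorem SQI_od (m : ℕ) : (((2 * m + 1 : ℕ) : ℝ) ^ 2 + 5 * (2 * m + 1 : ℕ) + 2) *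
    (1 + (2 * m + 1 : ℕ)) + (2 + (2 * m + 1 : ℕ)) ^ 2 ≤ 68 * (1.4142 * 2 ^ m) := by
  rcases Nat.lt_or_ge m 4 with h | h
  · interval_cases m <;> norm_num
  · have key : ∀ k : ℕ, (((2 * (k + 4) + 1 : ℕ) : ℝ) ^ 2 + 5 * (2 * (k + 4) + 1 : ℕ) + 2) *
        (1 + (2 * (k + 4) + 1 : ℕ)) + (2 + (2 * (k + 4) + 1 : ℕ)) ^ 2 ≤
        68 * (1.4142 * 2 ^ (k + 4)) := by
      intro k
      induction k with
      | zero => norm_num
      | succ k ih =>
        have hk : (0 : ℝ) ≤ k := Nat.cast_nonneg k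
        have e : (2 : ℝ) ^ (k + 1 + 4) = 2 * 2 ^ (k + 4) := by ring
        rw [e]
        push_cast at ih ⊢
        nlinarith [mul_nonneg hk hk, mul_nonneg hk (mul_nonneg hk hk)]
    obtain ⟨k, rfl⟩ : ∃ k, m = k + 4 := ⟨m - 4, by omega⟩
    exact key k

theorem SQI : SQI_stmt := by
  refine ⟨SQI_one, fun l => ?_⟩
  rcases Nat.even_or_odd' l with ⟨m, rfl | rfl⟩
  · have e : √((2 : ℝ) ^ (2 * m)) = 2 ^ m := by
      rw [mul_comm, pow_mul]
      exact Real.sqrt_sq (by positivity)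
    rw [e]
    exact SQI_ev m
  · have e : √((2 : ℝ) ^ (2 * m + 1)) = 2 ^ m * √2 := by
      rw [pow_succ, Real.sqrt_mul (by positivity), mul_comm 2 m, pow_mul]
      congr 1
      exact Real.sqrt_sq (by positivity)
    have h2 : (1.4142 : ℝ) ≤ √2 := by
      refine Real.le_sqrt_of_sq_le ?_
      norm_num
    rw [e]
    have h3 := SQI_od m
    have h4 : (1.4142 : ℝ) * 2 ^ m ≤ 2 ^ m * √2 := by
      rw [mul_comm]
      exact mul_le_mul_of_nonneg_left h2 (by positivity)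
    linarith

end LSH.Lin
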